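import Mathlib

/-!
# The bipartition polynomial of the complement determines the bipartition polynomial
-/

set_option autoImplicit false

namespace Pool.Agent.Results.MP_633bfc_co.ComplementDetermines

open Classical in
/-- The set of edges of `G` with exactly one endpoint in `W`. -/
noncomputable def boundary {V : Type*} [Fintype V] (G : SimpleGraph V) (W : Finset V) :
    Finset (Sym2 V) :=
  Finset.univ.filter fun e => e ∈ G.edgeSet ∧ ∃ w ∈ W, ∃ u, u ∉ W ∧ e = s(w, u)

open Classical in
/-- The set of vertices outside `W` joined to a vertex of `W` by an edge of `F`. -/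
noncomputable def nbrs {V : Type*} [Fintype V] (F : Finset (Sym2 V)) (W : Finset V) : Finset V :=
  Finset.univ.filter fun u => u ∉ W ∧ ∃ w ∈ W, s(w, u) ∈ F

/-- The bipartition polynomial of a finite graph, an integer polynomial in the three variables
`x = X 0`, `y = X 1`, `z = X 2`. -/
noncomputable def bipartitionPoly {V : Type*} [Fintype V] (G : SimpleGraph V) :
    MvPolynomial (Fin 3) ℤ :=
  ∑ W : Finset V, MvPolynomial.X 0 ^ W.card *
    ∑ F ∈ (boundary G W).powerset, MvPolynomial.X 1 ^ (nbrs F W).card * MvPolynomial.X 2 ^ F.card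

/-! ### Counting edges between disjoint sets -/

open Classical in
/-- Number of pairs in `W × U` that are adjacent. -/
noncomputable def e {V : Type*} (G : SimpleGraph V) (W U : Finset V) : ℕ :=
  ((W ×ˢ U).filter fun p => G.Adj p.1 p.2).card

lemma e_compl {V : Type*} (G : SimpleGraph V) (W U : Finset V) (h : Disjoint W U) :
    e Gᶜ W U + e G W U = W.card * U.card := by
  classical
  unfold e
  rw [← Finset.card_product, ← Finset.card_filter_add_card_filter_not
    (s := W ×ˢ U) (fun p => G.Adj p.1 p.2), add_comm]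
  congr 2
  ext ⟨w, u⟩
  simp only [Finset.mem_filter, Finset.mem_product, SimpleGraph.compl_adj]
  constructor
  · rintro ⟨hp, -, h2⟩
    exact ⟨hp, h2⟩
  · rintro ⟨hp, h2⟩
    exact ⟨hp, fun hwu => Finset.disjoint_left.1 h hp.1 (hwu ▸ hp.2), h2⟩

open Classical in
/-- The set of ordered pairs of disjoint sets. -/
noncomputable def DP (V : Type*) [Fintype V] : Finset (Finset V × Finset V) :=
  Finset.univ.filter fun p => Disjoint p.1 p.2

open Classical in
/-- The number of pairs of disjoint sets of given sizes with a given number of edges between. -/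
noncomputable def N {V : Type*} [Fintype V] (G : SimpleGraph V) (a b k : ℕ) : ℕ :=
  ((DP V).filter fun p => p.1.card = a ∧ p.2.card = b ∧ e G p.1 p.2 = k).card

lemma N_compl {V : Type*} [Fintype V] (G : SimpleGraph V) (a b k : ℕ) :
    N Gᶜ a b k = if k ≤ a * b then N G a b (a * b - k) else 0 := by
  classical
  split_ifs with hk
  · unfold N
    congr 1
    apply Finset.filter_congr
    rintro ⟨W, U⟩ hp
    have hd : Disjoint W U := by simpa [DP] using hp
    have := e_compl G W U hd
    dsimp only
    constructor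
    · rintro ⟨h1, h2, h3⟩
      rw [h1, h2] at this
      exact ⟨h1, h2, by omega⟩
    · rintro ⟨h1, h2, h3⟩
      rw [h1, h2] at this
      exact ⟨h1, h2, by omega⟩
  · unfold N
    rw [Finset.card_eq_zero, Finset.filter_eq_empty_iff]
    rintro ⟨W, U⟩ hp
    have hd : Disjoint W U := by simpa [DP] using hp
    have := e_compl G W U hd
    rintro ⟨h1, h2, h3⟩
    dsimp only at h1 h2 h3
    rw [h1, h2] at this
    omega

/-! ### The expansion -/

lemma sum_superset {V : Type*} [DecidableEq V] (S M : Finset V) (h : M ⊆ S) (y : ℝ) :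
    ∑ U ∈ S.powerset.filter (fun U => M ⊆ U), y ^ U.card * (1 - y) ^ (S.card - U.card) =
      y ^ M.card := by
  have h1 : S.powerset.filter (fun U => M ⊆ U) = (S \ M).powerset.image (fun T => M ∪ T) := by
    rw [← Finset.Icc_eq_image_powerset h]
    ext U
    simp [and_comm]
  rw [h1, Finset.sum_image]
  · have h2 : ∀ T ∈ (S \ M).powerset, y ^ (M ∪ T).card * (1 - y) ^ (S.card - (M ∪ T).card) =
        y ^ M.card * (y ^ T.card * (1 - y) ^ ((S \ M).card - T.card)) := by
      intro T hT
      rw [Finset.mem_powerset] at hT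
      have hd : Disjoint M T := by
        rw [Finset.disjoint_left]
        intro x hx hx'
        exact (Finset.mem_sdiff.1 (hT hx')).2 hx
      rw [Finset.card_union_of_disjoint hd, Finset.card_sdiff_of_subset h, pow_add, Nat.sub_add_eq]
      ring
    rw [Finset.sum_congr rfl h2, ← Finset.mul_sum, Finset.sum_pow_mul_eq_add_pow]
    simp
  · intro T hT T' hT' hTT
    simp only [Finset.coe_powerset, Set.mem_preimage, Set.mem_powerset_iff,
      Finset.coe_subset] at hT hT'
    have h3 : ∀ T : Finset V, T ⊆ S \ M → (M ∪ T) \ M = T := by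
      intro T hT
      rw [Finset.union_sdiff_left]
      exact Finset.sdiff_eq_self_of_disjoint (by
        rw [Finset.disjoint_left]
        intro x hx
        exact (Finset.mem_sdiff.1 (hT hx)).2)
    rw [← h3 T hT, ← h3 T' hT']
    exact congrArg (· \ M) hTT

lemma powerset_filter {V : Type*} [Fintype V] [DecidableEq V] (G : SimpleGraph V)
    (W U : Finset V) (hU : U ⊆ Wᶜ) (z : ℝ) :
    ∑ F ∈ (boundary G W).powerset.filter (fun F => nbrs F W ⊆ U), z ^ F.card =
      (1 + z) ^ e G W U := by
  classical
  let E : Finset (Sym2 V) := ((W ×ˢ U).filter fun p => G.Adj p.1 p.2).image fun p => s(p.1, p.2)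
  have hdis : ∀ x, x ∈ W → x ∈ U → False := fun x hx hx' => by
    have := hU hx'
    simp [hx] at this
  have hE : E.card = e G W U := by
    unfold e
    rw [Finset.card_image_of_injOn]
    rintro ⟨w, u⟩ hp ⟨w', u'⟩ hp' heq
    simp only [Finset.coe_filter, Finset.mem_product, Set.mem_ofPred_eq] at hp hp'
    simp only [Sym2.eq_iff] at heq
    rcases heq with ⟨h1, h2⟩ | ⟨h1, h2⟩
    · rw [h1, h2]
    · exact (hdis w hp.1.1 (h1 ▸ hp'.1.2)).elim
  have hpow : (boundary G W).powerset.filter (fun F => nbrs F W ⊆ U) = E.powerset := by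
    ext F
    simp only [Finset.mem_filter, Finset.mem_powerset]
    constructor
    · rintro ⟨h1, h2⟩ f hf
      have hf' := h1 hf
      simp only [boundary, Finset.mem_filter, Finset.mem_univ, true_and] at hf'
      obtain ⟨hG, w, hw, u, hu, rfl⟩ := hf'
      have huU : u ∈ U := h2 (by
        simp only [nbrs, Finset.mem_filter, Finset.mem_univ, true_and]
        exact ⟨hu, w, hw, hf⟩)
      simp only [E, Finset.mem_image, Finset.mem_filter, Finset.mem_product, Prod.exists]
      exact ⟨w, u, ⟨⟨hw, huU⟩, hG⟩, rfl⟩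
    · intro hF
      refine ⟨?_, ?_⟩
      · intro f hf
        have hf' := hF hf
        simp only [E, Finset.mem_image, Finset.mem_filter, Finset.mem_product,
          Prod.exists] at hf'
        obtain ⟨w, u, ⟨⟨hw, hu⟩, hG⟩, rfl⟩ := hf'
        simp only [boundary, Finset.mem_filter, Finset.mem_univ, true_and]
        exact ⟨hG, w, hw, u, fun h => hdis u h hu, rfl⟩
      · intro u hu
        simp only [nbrs, Finset.mem_filter, Finset.mem_univ, true_and] at hu
        obtain ⟨hu1, w, hw, hf⟩ := hu
        have hf' := hF hf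
        simp only [E, Finset.mem_image, Finset.mem_filter, Finset.mem_product,
          Prod.exists, Sym2.eq_iff] at hf'
        obtain ⟨w', u', ⟨⟨hw', hu'⟩, hG⟩, h⟩ := hf'
        rcases h with ⟨rfl, rfl⟩ | ⟨rfl, rfl⟩
        · exact hu'
        · exact (hu1 hw').elim
  rw [hpow, ← hE]
  have := Finset.sum_pow_mul_eq_add_pow z 1 E
  simp only [one_pow, mul_one] at this
  rw [this, add_comm]

lemma inner_eq {V : Type*} [Fintype V] [DecidableEq V] (G : SimpleGraph V) (W : Finset V)
    (y z : ℝ) :
    ∑ F ∈ (boundary G W).powerset, y ^ (nbrs F W).card * z ^ F.card =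
      ∑ U ∈ (Wᶜ).powerset, y ^ U.card * (1 - y) ^ ((Wᶜ).card - U.card) *
        (1 + z) ^ e G W U := by
  classical
  have h1 : ∀ U ∈ (Wᶜ).powerset, y ^ U.card * (1 - y) ^ ((Wᶜ).card - U.card) *
        (1 + z) ^ e G W U = ∑ F ∈ (boundary G W).powerset,
          if nbrs F W ⊆ U then y ^ U.card * (1 - y) ^ ((Wᶜ).card - U.card) * z ^ F.card
          else 0 := by
    intro U hU
    rw [← powerset_filter G W U (Finset.mem_powerset.1 hU) z, Finset.mul_sum,
      Finset.sum_filter]
  rw [Finset.sum_congr rfl h1, Finset.sum_comm]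
  refine Finset.sum_congr rfl fun F _ => ?_
  rw [← Finset.sum_filter, ← Finset.sum_mul, sum_superset]
  intro u hu
  simp only [nbrs, Finset.mem_filter, Finset.mem_univ, true_and] at hu
  simp [hu.1]

/-- Evaluation of the bipartition polynomial. -/
lemma eval_eq {V : Type*} [Fintype V] (G : SimpleGraph V) (x y z : ℝ) :
    MvPolynomial.eval₂ (Int.castRingHom ℝ) ![x, y, z] (bipartitionPoly G) =
      ∑ p ∈ DP V, x ^ p.1.card * (y ^ p.2.card *
        (1 - y) ^ (Fintype.card V - p.1.card - p.2.card) * (1 + z) ^ e G p.1 p.2) := by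
  classical
  have h0 : MvPolynomial.eval₂ (Int.castRingHom ℝ) ![x, y, z] (bipartitionPoly G) =
      ∑ W : Finset V, x ^ W.card *
        ∑ F ∈ (boundary G W).powerset, y ^ (nbrs F W).card * z ^ F.card := by
    simp [bipartitionPoly, MvPolynomial.eval₂_sum, MvPolynomial.eval₂_mul,
      MvPolynomial.eval₂_pow, MvPolynomial.eval₂_X]
  rw [h0]
  unfold DP
  rw [Finset.sum_filter, ← Finset.univ_product_univ, Finset.sum_product]
  refine Finset.sum_congr rfl fun W _ => ?_
  rw [inner_eq, ← Finset.sum_filter, Finset.mul_sum]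
  have h2 : (Wᶜ).powerset = Finset.univ.filter fun U => Disjoint W U := by
    ext U
    simp [Finset.mem_powerset, Finset.subset_compl_iff_disjoint_left]
  rw [h2]
  refine Finset.sum_congr rfl fun U _ => ?_
  simp only [Finset.card_compl]

/-! ### Determination of the numbers `N` -/

/-- The generating polynomial of the numbers `N`. -/
noncomputable def Q {V : Type*} [Fintype V] (G : SimpleGraph V) : MvPolynomial (Fin 3) ℝ :=
  ∑ p ∈ DP V, MvPolynomial.X 0 ^ p.1.card * MvPolynomial.X 1 ^ p.2.card *
    MvPolynomial.X 2 ^ e G p.1 p.2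

lemma monomial_eq (a b k : ℕ) : (MvPolynomial.X 0 ^ a * MvPolynomial.X 1 ^ b *
    MvPolynomial.X 2 ^ k : MvPolynomial (Fin 3) ℝ) =
      MvPolynomial.monomial (Finsupp.single 0 a + Finsupp.single 1 b + Finsupp.single 2 k) 1 := by
  rw [MvPolynomial.X_pow_eq_monomial, MvPolynomial.X_pow_eq_monomial,
    MvPolynomial.X_pow_eq_monomial, MvPolynomial.monomial_mul, MvPolynomial.monomial_mul]
  simp

lemma exp_inj (a b k a' b' k' : ℕ)
    (h : (Finsupp.single 0 a + Finsupp.single 1 b + Finsupp.single 2 k : Fin 3 →₀ ℕ) =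
      Finsupp.single 0 a' + Finsupp.single 1 b' + Finsupp.single 2 k') :
    a = a' ∧ b = b' ∧ k = k' := by
  have h0 := DFunLike.congr_fun h 0
  have h1 := DFunLike.congr_fun h 1
  have h2 := DFunLike.congr_fun h 2
  simp at h0 h1 h2
  exact ⟨h0, h1, h2⟩

lemma coeff_Q {V : Type*} [Fintype V] (G : SimpleGraph V) (a b k : ℕ) :
    MvPolynomial.coeff (Finsupp.single 0 a + Finsupp.single 1 b + Finsupp.single 2 k) (Q G) =
      N G a b k := by
  classical
  unfold Q N
  rw [MvPolynomial.coeff_sum, Finset.card_filter]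
  push_cast
  refine Finset.sum_congr rfl fun p _ => ?_
  rw [monomial_eq, MvPolynomial.coeff_monomial]
  congr 1
  apply propext
  constructor
  · intro h
    exact exp_inj _ _ _ _ _ _ h
  · rintro ⟨h1, h2, h3⟩
    rw [h1, h2, h3]

lemma eval_Q {V : Type*} [Fintype V] (G : SimpleGraph V) (v : Fin 3 → ℝ) :
    MvPolynomial.eval v (Q G) =
      ∑ p ∈ DP V, v 0 ^ p.1.card * v 1 ^ p.2.card * v 2 ^ e G p.1 p.2 := by
  simp [Q]

lemma card_add_le {V : Type*} [Fintype V] (p : Finset V × Finset V) (hp : p ∈ DP V) :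
    p.1.card + p.2.card ≤ Fintype.card V := by
  classical
  have hd : Disjoint p.1 p.2 := by simpa [DP] using hp
  rw [← Finset.card_union_of_disjoint hd]
  exact Finset.card_le_univ _

lemma pow_aux (c X Y T : ℝ) (hc : c ≠ 0) (a b m k : ℕ) :
    X ^ a * Y ^ b * T ^ k =
      c ^ (a + b + m) * ((X / c) ^ a * ((Y / c) ^ b * (1 / c) ^ m * (1 + (T - 1)) ^ k)) := by
  rw [show 1 + (T - 1) = T by ring, div_pow, div_pow, div_pow, one_pow, pow_add, pow_add]
  have h1 : c ^ a ≠ 0 := pow_ne_zero _ hc
  have h2 : c ^ b ≠ 0 := pow_ne_zero _ hc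
  have h3 : c ^ m ≠ 0 := pow_ne_zero _ hc
  generalize c ^ a = p at *
  generalize c ^ b = q at *
  generalize c ^ m = r at *
  generalize X ^ a = x at *
  generalize Y ^ b = y at *
  generalize T ^ k = t at *
  field_simp

/-- The generating polynomial in terms of the bipartition polynomial. -/
lemma eval_Q_eq {V : Type*} [Fintype V] (G : SimpleGraph V) (X Y T : ℝ) (hY : 1 + Y ≠ 0) :
    MvPolynomial.eval ![X, Y, T] (Q G) = (1 + Y) ^ Fintype.card V *
      MvPolynomial.eval₂ (Int.castRingHom ℝ) ![X / (1 + Y), Y / (1 + Y), T - 1]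
        (bipartitionPoly G) := by
  rw [eval_Q, eval_eq, Finset.mul_sum]
  refine Finset.sum_congr rfl fun p hp => ?_
  have hc := card_add_le p hp
  obtain ⟨m, hm⟩ : ∃ m, Fintype.card V = p.1.card + p.2.card + m := ⟨_, (Nat.add_sub_of_le hc).symm⟩
  have h1 : Fintype.card V - p.1.card - p.2.card = m := by omega
  rw [h1, hm]
  have h2 : 1 - Y / (1 + Y) = 1 / (1 + Y) := by field_simp; ring
  rw [h2]
  simp only [Matrix.cons_val_zero, Matrix.cons_val_one, Matrix.cons_val]
  exact pow_aux (1 + Y) X Y T hY _ _ _ _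

lemma eval_zero {V : Type*} [Fintype V] (G : SimpleGraph V) :
    MvPolynomial.eval₂ (Int.castRingHom ℝ) ![1, 0, 0] (bipartitionPoly G) =
      2 ^ Fintype.card V := by
  classical
  have h0 : MvPolynomial.eval₂ (Int.castRingHom ℝ) ![1, 0, 0] (bipartitionPoly G) =
      ∑ W : Finset V, ∑ F ∈ (boundary G W).powerset,
        (0 : ℝ) ^ (nbrs F W).card * 0 ^ F.card := by
    simp [bipartitionPoly, MvPolynomial.eval₂_sum, MvPolynomial.eval₂_mul,
      MvPolynomial.eval₂_pow, MvPolynomial.eval₂_X]
  rw [h0]
  have h1 : ∀ W : Finset V, ∑ F ∈ (boundary G W).powerset,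
        (0 : ℝ) ^ (nbrs F W).card * 0 ^ F.card = 1 := by
    intro W
    rw [Finset.sum_eq_single (∅ : Finset (Sym2 V))]
    · have : nbrs (∅ : Finset (Sym2 V)) W = ∅ := by
        ext u; simp [nbrs]
      simp [this]
    · intro F _ hF
      have : F.card ≠ 0 := fun h => hF (Finset.card_eq_zero.1 h)
      simp [this]
    · intro h
      exact absurd (Finset.empty_mem_powerset _) h
  rw [Finset.sum_congr rfl fun W _ => h1 W]
  simp

/-- The bipartition polynomial determines the order and the numbers `N`. -/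
lemma determines {V V' : Type*} [Fintype V] [Fintype V'] (G : SimpleGraph V)
    (H : SimpleGraph V') (h : bipartitionPoly G = bipartitionPoly H) :
    Fintype.card V = Fintype.card V' ∧ ∀ a b k, N G a b k = N H a b k := by
  have hn : Fintype.card V = Fintype.card V' := by
    have h1 := eval_zero G
    rw [h, eval_zero H] at h1
    have h2 : (2 : ℕ) ^ Fintype.card V' = 2 ^ Fintype.card V := by exact_mod_cast h1
    exact (Nat.pow_right_injective le_rfl h2).symm
  refine ⟨hn, ?_⟩
  have hQ : (1 + MvPolynomial.X 1) * (Q G - Q H) = 0 := by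
    apply MvPolynomial.funext
    intro v
    rw [map_mul, map_sub, map_zero]
    have hv : v = ![v 0, v 1, v 2] := by
      ext i; fin_cases i <;> rfl
    by_cases hY : 1 + v 1 = 0
    · simp [hY]
    · rw [hv, eval_Q_eq G _ _ _ hY, eval_Q_eq H _ _ _ hY, h, hn]
      simp
  have hne : (1 + MvPolynomial.X 1 : MvPolynomial (Fin 3) ℝ) ≠ 0 := by
    intro h0
    have := congrArg (MvPolynomial.eval (fun _ => (0 : ℝ))) h0
    simp at this
  have hQ' : Q G = Q H := sub_eq_zero.1 ((mul_eq_zero.1 hQ).resolve_left hne)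
  intro a b k
  have := congrArg (MvPolynomial.coeff
    (Finsupp.single 0 a + Finsupp.single 1 b + Finsupp.single 2 k)) hQ'
  rw [coeff_Q, coeff_Q] at this
  exact_mod_cast this

/-- The bipartition polynomial is determined by the order and the numbers `N`. -/
lemma determined {V V' : Type*} [Fintype V] [Fintype V'] (G : SimpleGraph V)
    (H : SimpleGraph V') (hn : Fintype.card V = Fintype.card V')
    (h : ∀ a b k, N G a b k = N H a b k) : bipartitionPoly G = bipartitionPoly H := by
  have hQ : Q G = Q H := by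
    ext m
    have hm : m = Finsupp.single 0 (m 0) + Finsupp.single 1 (m 1) + Finsupp.single 2 (m 2) := by
      ext i
      fin_cases i <;> simp
    rw [hm, coeff_Q, coeff_Q, h]
  have key : (1 - MvPolynomial.X 1 : MvPolynomial (Fin 3) ℝ) *
      (MvPolynomial.map (Int.castRingHom ℝ) (bipartitionPoly G) -
        MvPolynomial.map (Int.castRingHom ℝ) (bipartitionPoly H)) = 0 := by
    apply MvPolynomial.funext
    intro v
    rw [map_mul, map_zero]
    by_cases hy : 1 - v 1 = 0
    · simp [hy]
    · have hpos : 1 + v 1 / (1 - v 1) ≠ 0 := by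
        have : 1 + v 1 / (1 - v 1) = 1 / (1 - v 1) := by field_simp; ring
        rw [this]
        exact one_div_ne_zero hy
      have h1 := eval_Q_eq G (v 0 / (1 - v 1)) (v 1 / (1 - v 1)) (v 2 + 1) hpos
      have h2 := eval_Q_eq H (v 0 / (1 - v 1)) (v 1 / (1 - v 1)) (v 2 + 1) hpos
      rw [hQ, h2, hn] at h1
      have h3 := mul_left_cancel₀ (pow_ne_zero _ hpos) h1
      have hx : v 0 / (1 - v 1) / (1 + v 1 / (1 - v 1)) = v 0 := by
        have : 1 + v 1 / (1 - v 1) = 1 / (1 - v 1) := by field_simp; ring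
        rw [this]; field_simp
      have hy' : v 1 / (1 - v 1) / (1 + v 1 / (1 - v 1)) = v 1 := by
        have : 1 + v 1 / (1 - v 1) = 1 / (1 - v 1) := by field_simp; ring
        rw [this]; field_simp
      rw [hx, hy', add_sub_cancel_right] at h3
      have hv : v = ![v 0, v 1, v 2] := by
        ext i; fin_cases i <;> rfl
      rw [map_sub (MvPolynomial.eval v) (MvPolynomial.map _ _), MvPolynomial.eval_map,
        MvPolynomial.eval_map]
      rw [← hv] at h3
      rw [h3, sub_self, mul_zero]
  have hne : (1 - MvPolynomial.X 1 : MvPolynomial (Fin 3) ℝ) ≠ 0 := by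
    intro h0
    have := congrArg (MvPolynomial.eval (fun _ => (0 : ℝ))) h0
    simp at this
  have h1 := sub_eq_zero.1 ((mul_eq_zero.1 key).resolve_left hne)
  exact MvPolynomial.map_injective _ (RingHom.injective_int _) h1

/-- If the complements of two finite graphs have the same bipartition polynomial, then so do the
graphs. -/
theorem result {V V' : Type*} [Fintype V] [Fintype V'] (G : SimpleGraph V) (H : SimpleGraph V')
    (h : bipartitionPoly Gᶜ = bipartitionPoly Hᶜ) : bipartitionPoly G = bipartitionPoly H := by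
  obtain ⟨hn, hN⟩ := determines _ _ h
  refine determined G H hn fun a b k => ?_
  have h1 := N_compl Gᶜ a b k
  have h2 := N_compl Hᶜ a b k
  rw [compl_compl] at h1 h2
  rw [h1, h2]
  split_ifs
  · exact hN _ _ _
  · rfl

end Pool.Agent.Results.MP_633bfc_co.ComplementDetermines
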